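import Pool.Agent.Helper17.QD.Glue

/-! # Project QD, glue: Mumford compactness, the form used in the assembly -/

set_option autoImplicit false

open Filter Topology Matrix Set Metric MeasureTheory
open scoped ComplexConjugate ComplexOrder ENNReal

namespace Pool.Agent.Helper33.QL

open Pool.Agent.Helper17.QD
open Pool.Agent.Helper35.PM
open Pool.Agent.Helper20.QD (Fuch cj IsSU D DD SS dz dzb mob den)

private theorem cc_cc {Γ : Type} [Group Γ] (ρ : Γ →* SL) : cc (cc ρ) = ρ := by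
  ext γ i j
  simp [cc]

private theorem cc_pre {Γ : Type} [Group Γ] (φ : Γ ≃* Γ) (ρ : Γ →* SL) :
    cc (pre φ ρ) = pre φ (cc ρ) := rfl

theorem hMUM (hMU0 : StMU0) (hQIN : StQIN) (hFPC : StFPC) : StMUM := by
  intro g hg s0 hs0 ε hε
  obtain ⟨k0, h0, h1, H⟩ := hMU0 g hg s0 hs0 ε hε
  refine ⟨k0, h0, h1, fun σ hσ hT => ?_⟩
  obtain ⟨φ, E, hE, hc⟩ := H σ hσ hT
  have hp : Fuch (pre φ s0) := (hFPC _ s0 hs0).2.1 φ
  rcases hc with hc | hc
  · obtain ⟨⟨E', hE', -, hinv⟩, -, -⟩ := hQIN k0 E h1 hE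
    exact ⟨φ, E', hE', Or.inl (hinv _ (pre φ s0) σ hp hσ hc)⟩
  · obtain ⟨-, hE2, hcc⟩ := hQIN k0 E h1 hE
    have h2 := hcc _ (pre φ s0) (cc σ) hc
    rw [cc_cc, cc_pre] at h2
    obtain ⟨⟨E', hE', -, hinv⟩, -, -⟩ := hQIN k0 _ h1 hE2
    have hp2 : Fuch (pre φ (cc s0)) := (hFPC _ (cc s0) (hFPC _ s0 hs0).1).2.1 φ
    exact ⟨φ, E', hE', Or.inr (hinv _ (pre φ (cc s0)) σ hp2 hσ h2)⟩

end Pool.Agent.Helper33.QL
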